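import Mathlib

set_option autoImplicit false

/-!
# Comparing the numbers of roots by interpolation
-/

namespace Pool.Agent.Y544.ED

open Polynomial

variable {K : Type} [Field K]

/-- `φ` maps the roots of `F` into the roots of `G`, with a left inverse `ψ`, avoiding the points
of `A` -/
def Inj (F G φ ψ : K[X]) (A : Set K) : Prop :=
  ∀ e : K, F.eval e = 0 → G.eval (φ.eval e) = 0 ∧ ψ.eval (φ.eval e) = e ∧ φ.eval e ∉ A

open Classical in
/-- distinct roots -/
noncomputable def rt (F : K[X]) : Finset K := F.roots.toFinset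

theorem mem_rt {F : K[X]} (hF : F ≠ 0) {e : K} : e ∈ rt F ↔ F.eval e = 0 := by
  classical
  unfold rt
  rw [Multiset.mem_toFinset, mem_roots hF]
  rfl

theorem card_le_of_inj {F G φ ψ : K[X]} (hF : F ≠ 0) (hG : G ≠ 0) (h : Inj F G φ ψ ∅) :
    (rt F).card ≤ (rt G).card := by
  refine Finset.card_le_card_of_injOn (fun e => φ.eval e) ?_ ?_
  · intro e he
    exact (mem_rt hG).2 (h e ((mem_rt hF).1 he)).1
  · intro e he e' he' hee
    have h1 := (h e ((mem_rt hF).1 he)).2.1
    have h2 := (h e' ((mem_rt hF).1 he')).2.1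
    rw [← h1, ← h2]
    exact congrArg (fun z => ψ.eval z) hee

theorem card_lt_of_inj {F G φ ψ : K[X]} (hF : F ≠ 0) (hG : G ≠ 0) {e₀ : K}
    (he₀ : G.eval e₀ = 0) (h : Inj F G φ ψ {e₀}) :
    (rt F).card < (rt G).card := by
  classical
  have h1 : (rt F).card ≤ ((rt G).erase e₀).card := by
    refine Finset.card_le_card_of_injOn (fun e => φ.eval e) ?_ ?_
    · intro e he
      have h1 := h e ((mem_rt hF).1 he)
      refine Finset.mem_coe.2 (Finset.mem_erase.2 ⟨?_, (mem_rt hG).2 h1.1⟩)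
      intro h2
      exact h1.2.2 h2
    · intro e he e' he' hee
      have h1 := (h e ((mem_rt hF).1 he)).2.1
      have h2 := (h e' ((mem_rt hF).1 he')).2.1
      rw [← h1, ← h2]
      exact congrArg (fun z => ψ.eval z) hee
  rw [Finset.card_erase_of_mem ((mem_rt hG).2 he₀)] at h1
  have h2 : 0 < (rt G).card := Finset.card_pos.2 ⟨e₀, (mem_rt hG).2 he₀⟩
  omega

/-- interpolation of an arbitrary function on a finite set -/
theorem exists_interp (S : Finset K) (s : K → K) : ∃ p : K[X], ∀ x ∈ S, p.eval x = s x := by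
  classical
  refine ⟨Lagrange.interpolate S id s, fun x hx => ?_⟩
  have := Lagrange.eval_interpolate_at_node (r := s) (v := (id : K → K)) (Set.injOn_id _) hx
  exact this

theorem exists_inj_aux {F G : K[X]} (hF : F ≠ 0) (T : Finset K) (A : Set K)
    (hT : ∀ x ∈ T, G.eval x = 0 ∧ x ∉ A) (h : (rt F).card ≤ T.card) :
    ∃ φ ψ : K[X], Inj F G φ ψ A := by
  classical
  obtain ⟨s, hs1, hs2⟩ : ∃ s : K → K, (∀ x ∈ rt F, s x ∈ T) ∧ Set.InjOn s (rt F) := by
    obtain ⟨T', hT', hc⟩ := Finset.exists_subset_card_eq h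
    let e : rt F ≃ T' := Finset.equivOfCardEq hc.symm
    refine ⟨fun x => if hx : x ∈ rt F then (e ⟨x, hx⟩ : K) else x, ?_, ?_⟩
    · intro x hx
      simp only [hx, dif_pos]
      exact hT' (e ⟨x, hx⟩).2
    · intro x hx y hy hxy
      have hx' : x ∈ rt F := hx
      have hy' : y ∈ rt F := hy
      simp only [hx', hy', dif_pos] at hxy
      have := e.injective (Subtype.ext hxy)
      exact congrArg Subtype.val this
  obtain ⟨φ, hφ⟩ := exists_interp (rt F) s
  obtain ⟨ψ, hψ⟩ := exists_interp ((rt F).image s) (Function.invFunOn s (rt F))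
  refine ⟨φ, ψ, fun e he => ?_⟩
  have he' : e ∈ rt F := (mem_rt hF).2 he
  rw [hφ e he']
  refine ⟨(hT _ (hs1 e he')).1, ?_, (hT _ (hs1 e he')).2⟩
  rw [hψ _ (Finset.mem_image_of_mem s he')]
  exact hs2.leftInvOn_invFunOn he'

theorem exists_inj {F G : K[X]} (hF : F ≠ 0) (hG : G ≠ 0) (h : (rt F).card ≤ (rt G).card) :
    ∃ φ ψ : K[X], Inj F G φ ψ ∅ :=
  exists_inj_aux hF (rt G) ∅ (fun _ hx => ⟨(mem_rt hG).1 hx, fun h => h⟩) h

theorem exists_inj_lt {F G : K[X]} (hF : F ≠ 0) (hG : G ≠ 0) (h : (rt F).card < (rt G).card) :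
    ∃ (e₀ : K) (φ ψ : K[X]), G.eval e₀ = 0 ∧ Inj F G φ ψ {e₀} := by
  classical
  obtain ⟨e₀, he₀⟩ : (rt G).Nonempty := Finset.card_pos.1 (by omega)
  obtain ⟨φ, ψ, h1⟩ := exists_inj_aux (F := F) (G := G) hF ((rt G).erase e₀) {e₀}
    (fun x hx => ⟨(mem_rt hG).1 (Finset.mem_of_mem_erase hx), (Finset.mem_erase.1 hx).1⟩)
    (by rw [Finset.card_erase_of_mem he₀]; omega)
  exact ⟨e₀, φ, ψ, (mem_rt hG).1 he₀, h1⟩

theorem card_rt_le (F : K[X]) : (rt F).card ≤ F.natDegree := by
  classical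
  exact (Multiset.toFinset_card_le _).trans (card_roots' F)

/-- no multiple roots -/
def Sq (F : K[X]) : Prop := F ≠ 0 ∧ ∀ e : K, ¬ (X - C e) ^ 2 ∣ F

theorem card_rt_of_sq [IsAlgClosed K] {F : K[X]} (h : Sq F) : (rt F).card = F.natDegree := by
  classical
  have h1 : F.roots.Nodup := by
    rw [Multiset.nodup_iff_count_le_one]
    intro e
    rw [count_roots]
    by_contra hcon
    have h2 : 2 ≤ rootMultiplicity e F := by omega
    exact h.2 e ((le_rootMultiplicity_iff h.1).1 h2)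
  unfold rt
  rw [Multiset.toFinset_card_of_nodup h1]
  exact (splits_iff_card_roots.1 (IsAlgClosed.splits F))

theorem exists_sq [CharZero K] {f : K[X]} (hf : f ≠ 0) :
    ∃ c : K, Sq (f - C c) ∧ (f - C c).natDegree = f.natDegree := by
  classical
  have hinf : Infinite K := inferInstance
  by_cases hd : f.natDegree = 0
  · obtain ⟨a, ha⟩ : ∃ a, f = C a := ⟨_, eq_C_of_natDegree_eq_zero hd⟩
    subst ha
    have ha0 : a ≠ 0 := fun h => hf (by rw [h, C_0])
    refine ⟨0, ⟨by rw [C_0, sub_zero]; exact hf, fun e he => ?_⟩, by rw [C_0, sub_zero]⟩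
    rw [C_0, sub_zero] at he
    have h1 := natDegree_le_of_dvd he hf
    rw [natDegree_pow, natDegree_X_sub_C, natDegree_C] at h1
    omega
  · have hf' : derivative f ≠ 0 := by
      intro h
      exact hd (derivative_eq_zero.1 h)
    obtain ⟨c, hc⟩ := Infinite.exists_notMem_finset
      ((derivative f).roots.toFinset.image fun r => f.eval r)
    have hne : f - C c ≠ 0 := by
      intro h
      apply hd
      rw [sub_eq_zero.1 h, natDegree_C]
    refine ⟨c, ⟨hne, fun e he => hc ?_⟩, natDegree_sub_C⟩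
    obtain ⟨q, hq⟩ := he
    have h1 : f.eval e = c := by
      have := congrArg (eval e) hq
      simp only [eval_sub, eval_C, eval_mul, eval_pow, eval_X, sub_self] at this
      have h3 : f.eval e - c = 0 := by rw [this]; ring
      exact sub_eq_zero.1 h3
    have h2 : (derivative f).eval e = 0 := by
      have := congrArg (fun p => eval e (derivative p)) hq
      simp only [derivative_sub, derivative_C, sub_zero, derivative_mul, derivative_pow,
        derivative_X, eval_add, eval_mul, eval_pow, eval_sub, eval_X, eval_C, sub_self,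
        eval_one] at this
      rw [this]
      ring
    rw [Finset.mem_image]
    exact ⟨e, by rw [Multiset.mem_toFinset, mem_roots hf']; exact h2, h1⟩

/-- equality of degrees of nonzero polynomials -/
theorem natDegree_eq_iff [IsAlgClosed K] [CharZero K] {f g : K[X]} (hf : f ≠ 0) (hg : g ≠ 0) :
    f.natDegree = g.natDegree ↔ ∃ (c d : K) (φ ψ φ' ψ' : K[X]), Sq (f - C c) ∧ Sq (g - C d) ∧
      Inj (f - C c) (g - C d) φ ψ ∅ ∧ Inj (g - C d) (f - C c) φ' ψ' ∅ := by
  constructor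
  · intro h
    obtain ⟨c, hc, hc'⟩ := exists_sq hf
    obtain ⟨d, hd, hd'⟩ := exists_sq hg
    have h1 : (rt (f - C c)).card = (rt (g - C d)).card := by
      rw [card_rt_of_sq hc, card_rt_of_sq hd, hc', hd', h]
    obtain ⟨φ, ψ, h2⟩ := exists_inj hc.1 hd.1 h1.le
    obtain ⟨φ', ψ', h3⟩ := exists_inj hd.1 hc.1 h1.ge
    exact ⟨c, d, φ, ψ, φ', ψ', hc, hd, h2, h3⟩
  · rintro ⟨c, d, φ, ψ, φ', ψ', hc, hd, h2, h3⟩
    have e1 := card_le_of_inj hc.1 hd.1 h2
    have e2 := card_le_of_inj hd.1 hc.1 h3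
    rw [card_rt_of_sq hc, card_rt_of_sq hd, natDegree_sub_C, natDegree_sub_C] at e1 e2
    omega

/-- comparison of degrees of nonzero polynomials -/
theorem natDegree_lt_iff [IsAlgClosed K] [CharZero K] {f g : K[X]} (hf : f ≠ 0) (hg : g ≠ 0) :
    f.natDegree < g.natDegree ↔ ∃ (c d e₀ : K) (φ ψ : K[X]), Sq (f - C c) ∧ g - C d ≠ 0 ∧
      (g - C d).eval e₀ = 0 ∧ Inj (f - C c) (g - C d) φ ψ {e₀} := by
  constructor
  · intro h
    obtain ⟨c, hc, hc'⟩ := exists_sq hf
    obtain ⟨d, hd, hd'⟩ := exists_sq hg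
    have h1 : (rt (f - C c)).card < (rt (g - C d)).card := by
      rw [card_rt_of_sq hc, card_rt_of_sq hd, hc', hd']; exact h
    obtain ⟨e₀, φ, ψ, h2, h3⟩ := exists_inj_lt hc.1 hd.1 h1
    exact ⟨c, d, e₀, φ, ψ, hc, hd.1, h2, h3⟩
  · rintro ⟨c, d, e₀, φ, ψ, hc, hd, h2, h3⟩
    have e1 := card_lt_of_inj hc.1 hd h2 h3
    have e2 := card_rt_le (g - C d)
    rw [card_rt_of_sq hc, natDegree_sub_C] at e1
    rw [natDegree_sub_C] at e2
    omega

end Pool.Agent.Y544.ED
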