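import Mathlib

set_option autoImplicit false

/-!
# A small calculus of definable predicates in the language of rings
-/

namespace Pool.Agent.Y544.ED

open FirstOrder FirstOrder.Language FirstOrder.Ring

section

variable {M : Type} [CommRing M] [CompatibleRing M] {α β : Type}

/-- functions given by terms -/
def TD (f : (α → M) → M) : Prop :=
  ∃ t : Language.ring.Term α, ∀ v, t.realize v = f v

theorem TD.var (a : α) : TD (M := M) (fun v : α → M => v a) := ⟨Term.var a, fun _ => rfl⟩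

theorem TD.zero : TD (M := M) (fun _ : α → M => (0 : M)) := ⟨0, fun v => by simp⟩

theorem TD.one : TD (M := M) (fun _ : α → M => (1 : M)) := ⟨1, fun v => by simp⟩

theorem TD.add {f g : (α → M) → M} (hf : TD f) (hg : TD g) : TD (fun v => f v + g v) := by
  obtain ⟨s, hs⟩ := hf
  obtain ⟨t, ht⟩ := hg
  exact ⟨s + t, fun v => by simp [hs, ht]⟩

theorem TD.mul {f g : (α → M) → M} (hf : TD f) (hg : TD g) : TD (fun v => f v * g v) := by
  obtain ⟨s, hs⟩ := hf
  obtain ⟨t, ht⟩ := hg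
  exact ⟨s * t, fun v => by simp [hs, ht]⟩

theorem TD.neg {f : (α → M) → M} (hf : TD f) : TD (fun v => - f v) := by
  obtain ⟨s, hs⟩ := hf
  exact ⟨-s, fun v => by simp [hs]⟩

theorem TD.sub {f g : (α → M) → M} (hf : TD f) (hg : TD g) : TD (fun v => f v - g v) := by
  have h := hf.add hg.neg
  simpa only [sub_eq_add_neg] using h

/-- predicates given by quantifier-free formulas -/
def QD (P : (α → M) → Prop) : Prop :=
  ∃ φ : Language.ring.Formula α, φ.IsQF ∧ ∀ v, φ.Realize v ↔ P v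

theorem QD.eq {f g : (α → M) → M} (hf : TD f) (hg : TD g) : QD (fun v => f v = g v) := by
  obtain ⟨s, hs⟩ := hf
  obtain ⟨t, ht⟩ := hg
  refine ⟨s.equal t, ?_, fun v => ?_⟩
  · exact (BoundedFormula.IsAtomic.equal _ _).isQF
  · rw [Formula.realize_equal, hs, ht]

theorem QD.not {P : (α → M) → Prop} (hP : QD P) : QD (fun v => ¬ P v) := by
  obtain ⟨φ, h, h'⟩ := hP
  exact ⟨φ.not, h.not, fun v => by rw [Formula.realize_not, h']⟩

theorem QD.imp {P Q : (α → M) → Prop} (hP : QD P) (hQ : QD Q) : QD (fun v => P v → Q v) := by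
  obtain ⟨φ, h1, h1'⟩ := hP
  obtain ⟨ψ, h2, h2'⟩ := hQ
  exact ⟨φ.imp ψ, h1.imp h2, fun v => by rw [Formula.realize_imp, h1', h2']⟩

theorem QD.congr {P Q : (α → M) → Prop} (hP : QD P) (h : ∀ v, P v ↔ Q v) : QD Q := by
  obtain ⟨φ, h1, h1'⟩ := hP
  exact ⟨φ, h1, fun v => (h1' v).trans (h v)⟩

theorem QD.and {P Q : (α → M) → Prop} (hP : QD P) (hQ : QD Q) : QD (fun v => P v ∧ Q v) :=
  ((hP.imp hQ.not).not).congr (fun v => by tauto)

theorem QD.or {P Q : (α → M) → Prop} (hP : QD P) (hQ : QD Q) : QD (fun v => P v ∨ Q v) :=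
  ((hP.not.imp hQ)).congr (fun v => by tauto)

theorem QD.ne {f g : (α → M) → M} (hf : TD f) (hg : TD g) : QD (fun v => f v ≠ g v) :=
  (QD.eq hf hg).not

/-- predicates given by formulas -/
def FD (P : (α → M) → Prop) : Prop :=
  ∃ φ : Language.ring.Formula α, ∀ v, φ.Realize v ↔ P v

theorem QD.fd {P : (α → M) → Prop} (hP : QD P) : FD P := by
  obtain ⟨φ, _, h⟩ := hP
  exact ⟨φ, h⟩

theorem FD.congr {P Q : (α → M) → Prop} (hP : FD P) (h : ∀ v, P v ↔ Q v) : FD Q := by
  obtain ⟨φ, h'⟩ := hP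
  exact ⟨φ, fun v => (h' v).trans (h v)⟩

theorem FD.not {P : (α → M) → Prop} (hP : FD P) : FD (fun v => ¬ P v) := by
  obtain ⟨φ, h'⟩ := hP
  exact ⟨φ.not, fun v => by rw [Formula.realize_not, h']⟩

theorem FD.imp {P Q : (α → M) → Prop} (hP : FD P) (hQ : FD Q) : FD (fun v => P v → Q v) := by
  obtain ⟨φ, h1'⟩ := hP
  obtain ⟨ψ, h2'⟩ := hQ
  exact ⟨φ.imp ψ, fun v => by rw [Formula.realize_imp, h1', h2']⟩

theorem FD.and {P Q : (α → M) → Prop} (hP : FD P) (hQ : FD Q) : FD (fun v => P v ∧ Q v) :=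
  ((hP.imp hQ.not).not).congr (fun v => by tauto)

theorem FD.comap {P : (α → M) → Prop} (hP : FD P) (g : α → β) :
    FD (fun v : β → M => P (v ∘ g)) := by
  obtain ⟨φ, h⟩ := hP
  exact ⟨φ.relabel g, fun v => by rw [Formula.realize_relabel, h]⟩

theorem FD.exs [Finite β] {P : (α → M) → (β → M) → Prop}
    (hP : FD (fun v : α ⊕ β → M => P (v ∘ Sum.inl) (v ∘ Sum.inr))) :
    FD (fun v : α → M => ∃ x : β → M, P v x) := by
  obtain ⟨φ, h⟩ := hP
  refine ⟨φ.iExs β, fun v => ?_⟩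
  rw [Formula.realize_iExs]
  refine exists_congr fun x => ?_
  rw [h]
  exact Iff.rfl

theorem FD.alls [Finite β] {P : (α → M) → (β → M) → Prop}
    (hP : FD (fun v : α ⊕ β → M => P (v ∘ Sum.inl) (v ∘ Sum.inr))) :
    FD (fun v : α → M => ∀ x : β → M, P v x) := by
  obtain ⟨φ, h⟩ := hP
  refine ⟨φ.iAlls β, fun v => ?_⟩
  rw [Formula.realize_iAlls]
  refine forall_congr' fun x => ?_
  rw [h]
  exact Iff.rfl

/-- from predicates to definable sets -/
theorem FD.definable {P : (α → M) → Prop} (hP : FD P) :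
    (∅ : Set M).Definable Language.ring {v : α → M | P v} := by
  obtain ⟨φ, h⟩ := hP
  rw [Set.empty_definable_iff]
  exact ⟨φ, by ext v; exact (h v).symm⟩

end

end Pool.Agent.Y544.ED
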