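import Mathlib
import Pool.Agent.Y544.ED.Logic
import Pool.Agent.Y544.ED.Alg

set_option autoImplicit false

/-!
# Equality of degrees in polynomial rings: formulas
-/

namespace Pool.Agent.Y544.ED

open Polynomial FirstOrder FirstOrder.Language FirstOrder.Ring

section defs

variable {R : Type} [CommRing R]

/-- `e` is zero or a unit with inverse `e'` -/
def Cst (e e' : R) : Prop := e = 0 ∨ e * e' = 1

/-- the hypothesis in the matrix of `Inj` -/
def IH (t F φ e e' q r r' q' : R) : Prop :=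
  Cst e e' ∧ F = (t - e) * q ∧ Cst r r' ∧ φ - r = (t - e) * q'

/-- the matrix of `Inj` -/
def IQ (t F G φ ψ e e' q r r' q' u u' q'' : R) : Prop :=
  (IH t F φ e e' q r r' q' ∧ u * u' = 1) →
    (G - u ≠ (t - r) * q'' ∧ ψ - e - u ≠ (t - r) * q'')

/-- the matrix of `Sq` -/
def SQ (t F e e' q : R) : Prop := F ≠ 0 ∧ (Cst e e' → F ≠ (t - e) * (t - e) * q)

/-- the matrix of the formula for equal degrees -/
def MA (t f g : R) (x : Fin 8 → R) (y : Fin 9 → R) : Prop :=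
  (f = 0 ∧ g = 0) ∨ (f ≠ 0 ∧ g ≠ 0 ∧ Cst (x 0) (x 1) ∧ Cst (x 2) (x 3) ∧
    SQ t (f - x 0) (y 0) (y 1) (y 2) ∧ SQ t (g - x 2) (y 0) (y 1) (y 2) ∧
    IQ t (f - x 0) (g - x 2) (x 4) (x 5) (y 0) (y 1) (y 2) (y 3) (y 4) (y 5) (y 6) (y 7) (y 8) ∧
    IQ t (g - x 2) (f - x 0) (x 6) (x 7) (y 0) (y 1) (y 2) (y 3) (y 4) (y 5) (y 6) (y 7) (y 8))

/-- the matrix of the formula for smaller degree -/
def ML (t f g : R) (x : Fin 10 → R) (y : Fin 9 → R) : Prop :=
  Cst (x 0) (x 1) ∧ Cst (x 2) (x 3) ∧ Cst (x 4) (x 5) ∧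
    SQ t (f - x 0) (y 0) (y 1) (y 2) ∧ g - x 2 ≠ 0 ∧ g - x 2 = (t - x 4) * x 6 ∧
    IQ t (f - x 0) (g - x 2) (x 7) (x 8) (y 0) (y 1) (y 2) (y 3) (y 4) (y 5) (y 6) (y 7) (y 8) ∧
    (IH t (f - x 0) (x 7) (y 0) (y 1) (y 2) (y 3) (y 4) (y 5) → y 3 ≠ x 4)

/-- the matrix of the formula for different degrees -/
def MB (t f g : R) (x : Fin 10 → R) (y : Fin 9 → R) : Prop :=
  (f = 0 ∧ g ≠ 0) ∨ (f ≠ 0 ∧ g = 0) ∨ (f ≠ 0 ∧ g ≠ 0 ∧
    ((x 9 = 0 → ML t f g x y) ∧ (x 9 ≠ 0 → ML t g f x y)))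

end defs

section qf

variable {M : Type} [CommRing M] [CompatibleRing M] {α : Type}

theorem QD.cst {e e' : (α → M) → M} (h1 : TD e) (h2 : TD e') :
    QD (fun v => Cst (e v) (e' v)) :=
  (QD.eq h1 TD.zero).or (QD.eq (h1.mul h2) TD.one)

theorem QD.ih {t F φ e e' q r r' q' : (α → M) → M} (ht : TD t) (hF : TD F) (hφ : TD φ)
    (he : TD e) (he' : TD e') (hq : TD q) (hr : TD r) (hr' : TD r') (hq' : TD q') :
    QD (fun v => IH (t v) (F v) (φ v) (e v) (e' v) (q v) (r v) (r' v) (q' v)) :=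
  (QD.cst he he').and ((QD.eq hF ((ht.sub he).mul hq)).and
    ((QD.cst hr hr').and (QD.eq (hφ.sub hr) ((ht.sub he).mul hq'))))

theorem QD.iq {t F G φ ψ e e' q r r' q' u u' q'' : (α → M) → M} (ht : TD t) (hF : TD F)
    (hG : TD G) (hφ : TD φ) (hψ : TD ψ)
    (he : TD e) (he' : TD e') (hq : TD q) (hr : TD r) (hr' : TD r') (hq' : TD q')
    (hu : TD u) (hu' : TD u') (hq'' : TD q'') :
    QD (fun v => IQ (t v) (F v) (G v) (φ v) (ψ v) (e v) (e' v) (q v) (r v) (r' v) (q' v)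
      (u v) (u' v) (q'' v)) :=
  ((QD.ih ht hF hφ he he' hq hr hr' hq').and (QD.eq (hu.mul hu') TD.one)).imp
    ((QD.ne (hG.sub hu) ((ht.sub hr).mul hq'')).and
      (QD.ne ((hψ.sub he).sub hu) ((ht.sub hr).mul hq'')))

theorem QD.sq {t F e e' q : (α → M) → M} (ht : TD t) (hF : TD F)
    (he : TD e) (he' : TD e') (hq : TD q) :
    QD (fun v => SQ (t v) (F v) (e v) (e' v) (q v)) :=
  (QD.ne hF TD.zero).and ((QD.cst he he').imp
    (QD.ne hF (((ht.sub he).mul (ht.sub he)).mul hq)))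

variable {f g t : (α → M) → M}

theorem QD.ma {x : Fin 8 → (α → M) → M} {y : Fin 9 → (α → M) → M} (ht : TD t) (hf : TD f)
    (hg : TD g) (hx : ∀ i, TD (x i)) (hy : ∀ i, TD (y i)) :
    QD (fun v => MA (t v) (f v) (g v) (fun i => x i v) (fun i => y i v)) := by
  unfold MA
  refine QD.or ((QD.eq hf TD.zero).and (QD.eq hg TD.zero)) ?_
  refine (QD.ne hf TD.zero).and ((QD.ne hg TD.zero).and ?_)
  refine (QD.cst (hx 0) (hx 1)).and ((QD.cst (hx 2) (hx 3)).and ?_)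
  refine (QD.sq ht (hf.sub (hx 0)) (hy 0) (hy 1) (hy 2)).and
    ((QD.sq ht (hg.sub (hx 2)) (hy 0) (hy 1) (hy 2)).and ?_)
  exact (QD.iq ht (hf.sub (hx 0)) (hg.sub (hx 2)) (hx 4) (hx 5) (hy 0) (hy 1) (hy 2) (hy 3)
    (hy 4) (hy 5) (hy 6) (hy 7) (hy 8)).and
    (QD.iq ht (hg.sub (hx 2)) (hf.sub (hx 0)) (hx 6) (hx 7) (hy 0) (hy 1) (hy 2) (hy 3)
    (hy 4) (hy 5) (hy 6) (hy 7) (hy 8))

theorem QD.ml {x : Fin 10 → (α → M) → M} {y : Fin 9 → (α → M) → M} (ht : TD t) (hf : TD f)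
    (hg : TD g) (hx : ∀ i, TD (x i)) (hy : ∀ i, TD (y i)) :
    QD (fun v => ML (t v) (f v) (g v) (fun i => x i v) (fun i => y i v)) := by
  unfold ML
  refine (QD.cst (hx 0) (hx 1)).and ((QD.cst (hx 2) (hx 3)).and
    ((QD.cst (hx 4) (hx 5)).and ?_))
  refine (QD.sq ht (hf.sub (hx 0)) (hy 0) (hy 1) (hy 2)).and
    ((QD.ne (hg.sub (hx 2)) TD.zero).and ((QD.eq (hg.sub (hx 2))
      ((ht.sub (hx 4)).mul (hx 6))).and ?_))
  exact (QD.iq ht (hf.sub (hx 0)) (hg.sub (hx 2)) (hx 7) (hx 8) (hy 0) (hy 1) (hy 2) (hy 3)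
    (hy 4) (hy 5) (hy 6) (hy 7) (hy 8)).and
    ((QD.ih ht (hf.sub (hx 0)) (hx 7) (hy 0) (hy 1) (hy 2) (hy 3) (hy 4) (hy 5)).imp
      (QD.ne (hy 3) (hx 4)))

theorem QD.mb {x : Fin 10 → (α → M) → M} {y : Fin 9 → (α → M) → M} (ht : TD t) (hf : TD f)
    (hg : TD g) (hx : ∀ i, TD (x i)) (hy : ∀ i, TD (y i)) :
    QD (fun v => MB (t v) (f v) (g v) (fun i => x i v) (fun i => y i v)) := by
  unfold MB
  refine QD.or ((QD.eq hf TD.zero).and (QD.ne hg TD.zero)) (QD.or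
    ((QD.ne hf TD.zero).and (QD.eq hg TD.zero)) ?_)
  refine (QD.ne hf TD.zero).and ((QD.ne hg TD.zero).and ?_)
  exact ((QD.eq (hx 9) TD.zero).imp (QD.ml ht hf hg hx hy)).and
    ((QD.ne (hx 9) TD.zero).imp (QD.ml ht hg hf hx hy))

end qf

section poly

variable {K : Type} [Field K]

theorem cst_C (a : K) : ∃ e' : K[X], Cst (C a) e' := by
  by_cases h : a = 0
  · exact ⟨0, Or.inl (by rw [h, C_0])⟩
  · exact ⟨C a⁻¹, Or.inr (by rw [← C_mul, mul_inv_cancel₀ h, C_1])⟩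

theorem Cst.exists_C {e e' : K[X]} (h : Cst e e') : ∃ a : K, e = C a := by
  rcases h with h | h
  · exact ⟨0, by rw [h, C_0]⟩
  · obtain ⟨a, _, ha⟩ := Polynomial.isUnit_iff.1 (IsUnit.of_mul_eq_one e' h)
    exact ⟨a, ha.symm⟩

theorem eval_of_eq {F q : K[X]} {e : K} (h : F = (X - C e) * q) : F.eval e = 0 := by
  rw [h, eval_mul, eval_sub, eval_X, eval_C, sub_self, zero_mul]

theorem exists_q {F : K[X]} {e : K} (h : F.eval e = 0) : ∃ q, F = (X - C e) * q :=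
  dvd_iff_isRoot.2 h

theorem eval_of_all {G : K[X]} {r : K}
    (h : ∀ u u' q'' : K[X], u * u' = 1 → G - u ≠ (X - C r) * q'') : G.eval r = 0 := by
  by_contra h0
  obtain ⟨q, hq⟩ := exists_q (F := G - C (G.eval r)) (e := r) (by simp)
  exact h (C (G.eval r)) (C (G.eval r)⁻¹) q
    (by rw [← C_mul, mul_inv_cancel₀ h0, C_1]) hq

theorem ne_of_eval {G u u' q : K[X]} {r : K} (h : G.eval r = 0) (hu : u * u' = 1) :
    G - u ≠ (X - C r) * q := by
  intro h1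
  have h2 := eval_of_eq h1
  rw [eval_sub, h, zero_sub, neg_eq_zero] at h2
  have h3 := congrArg (eval r) hu
  rw [eval_mul, h2, zero_mul, eval_one] at h3
  exact zero_ne_one h3

theorem iq_iff (F G φ ψ : K[X]) :
    (∀ e e' q r r' q' u u' q'' : K[X], IQ X F G φ ψ e e' q r r' q' u u' q'') ↔
      Inj F G φ ψ ∅ := by
  constructor
  · intro h e he
    obtain ⟨e', he'⟩ := cst_C e
    obtain ⟨r', hr'⟩ := cst_C (φ.eval e)
    obtain ⟨q, hq⟩ := exists_q he
    obtain ⟨q', hq'⟩ := exists_q (F := φ - C (φ.eval e)) (e := e) (by simp)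
    have h1 := fun u u' q'' (hu : u * u' = 1) =>
      h (C e) e' q (C (φ.eval e)) r' q' u u' q'' ⟨⟨he', hq, hr', hq'⟩, hu⟩
    refine ⟨eval_of_all fun u u' q'' hu => (h1 u u' q'' hu).1, ?_, fun h => h⟩
    have h2 : (ψ - C e).eval (φ.eval e) = 0 :=
      eval_of_all fun u u' q'' hu => (h1 u u' q'' hu).2
    rw [eval_sub, eval_C] at h2
    exact sub_eq_zero.1 h2
  · rintro h e e' q r r' q' u u' q'' ⟨⟨he', hq, hr', hq'⟩, hu⟩
    obtain ⟨a, rfl⟩ := he'.exists_C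
    obtain ⟨b, rfl⟩ := hr'.exists_C
    have h1 := h a (eval_of_eq hq)
    have h2 := eval_of_eq hq'
    rw [eval_sub, eval_C] at h2
    have h3 : φ.eval a = b := sub_eq_zero.1 h2
    rw [h3] at h1
    refine ⟨ne_of_eval h1.1 hu, ne_of_eval ?_ hu⟩
    rw [eval_sub, eval_C, h1.2.1, sub_self]

theorem ih_iff (F φ : K[X]) (z : K) :
    (∀ e e' q r r' q' : K[X], IH X F φ e e' q r r' q' → r ≠ C z) ↔
      ∀ e : K, F.eval e = 0 → φ.eval e ≠ z := by
  constructor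
  · intro h e he h0
    obtain ⟨e', he'⟩ := cst_C e
    obtain ⟨r', hr'⟩ := cst_C (φ.eval e)
    obtain ⟨q, hq⟩ := exists_q he
    obtain ⟨q', hq'⟩ := exists_q (F := φ - C (φ.eval e)) (e := e) (by simp)
    exact h (C e) e' q (C (φ.eval e)) r' q' ⟨he', hq, hr', hq'⟩ (by rw [h0])
  · rintro h e e' q r r' q' ⟨he', hq, hr', hq'⟩ h0
    obtain ⟨a, rfl⟩ := he'.exists_C
    subst h0
    have h2 := eval_of_eq hq'
    rw [eval_sub, eval_C] at h2
    exact h a (eval_of_eq hq) (sub_eq_zero.1 h2)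

theorem sq_iff (F : K[X]) : (∀ e e' q : K[X], SQ X F e e' q) ↔ Sq F := by
  constructor
  · intro h
    refine ⟨(h 0 0 0).1, ?_⟩
    rintro e ⟨q, hq⟩
    obtain ⟨e', he'⟩ := cst_C e
    exact (h (C e) e' q).2 he' (by rw [hq]; ring)
  · rintro ⟨h0, h⟩ e e' q
    refine ⟨h0, fun he' hq => ?_⟩
    obtain ⟨a, rfl⟩ := he'.exists_C
    exact h a ⟨q, by rw [hq]; ring⟩

variable [IsAlgClosed K] [CharZero K]

/-- the `∃∀` form of equality of degrees -/
theorem ma_iff (f g : K[X]) :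
    f.degree = g.degree ↔ ∃ x : Fin 8 → K[X], ∀ y : Fin 9 → K[X], MA X f g x y := by
  by_cases hf : f = 0
  · subst hf
    by_cases hg : g = 0
    · subst hg
      exact ⟨fun _ => ⟨0, fun _ => Or.inl ⟨rfl, rfl⟩⟩, fun _ => rfl⟩
    · constructor
      · intro h
        rw [degree_zero] at h
        exact absurd (degree_eq_bot.1 h.symm) hg
      · rintro ⟨x, h⟩
        rcases h 0 with h1 | h1
        · exact absurd h1.2 hg
        · exact absurd rfl h1.1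
  · by_cases hg : g = 0
    · subst hg
      constructor
      · intro h
        rw [degree_zero] at h
        exact absurd (degree_eq_bot.1 h) hf
      · rintro ⟨x, h⟩
        rcases h 0 with h1 | h1
        · exact absurd h1.1 hf
        · exact absurd rfl h1.2.1
    · rw [degree_eq_natDegree hf, degree_eq_natDegree hg, Nat.cast_inj, natDegree_eq_iff hf hg]
      constructor
      · rintro ⟨c, d, φ, ψ, φ', ψ', hc, hd, h1, h2⟩
        obtain ⟨c', hc'⟩ := cst_C c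
        obtain ⟨d', hd'⟩ := cst_C d
        refine ⟨![C c, c', C d, d', φ, ψ, φ', ψ'], fun y => Or.inr ⟨hf, hg, hc', hd',
          (sq_iff _).2 hc _ _ _, (sq_iff _).2 hd _ _ _, (iq_iff _ _ _ _).2 h1 _ _ _ _ _ _ _ _ _,
          (iq_iff _ _ _ _).2 h2 _ _ _ _ _ _ _ _ _⟩⟩
      · rintro ⟨x, h⟩
        have h' := fun y => (h y).resolve_left (fun h => hf h.1)
        obtain ⟨_, _, h1, h2, _⟩ := h' 0
        obtain ⟨c, hc⟩ := h1.exists_C
        obtain ⟨d, hd⟩ := h2.exists_C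
        refine ⟨c, d, x 4, x 5, x 6, x 7, ?_, ?_, ?_, ?_⟩
        · rw [← hc]
          refine (sq_iff _).1 fun e e' q => ?_
          exact (h' ![e, e', q, 0, 0, 0, 0, 0, 0]).2.2.2.2.1
        · rw [← hd]
          refine (sq_iff _).1 fun e e' q => ?_
          exact (h' ![e, e', q, 0, 0, 0, 0, 0, 0]).2.2.2.2.2.1
        · rw [← hc, ← hd]
          refine (iq_iff _ _ _ _).1 fun e e' q r r' q' u u' q'' => ?_
          exact (h' ![e, e', q, r, r', q', u, u', q'']).2.2.2.2.2.2.1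
        · rw [← hc, ← hd]
          refine (iq_iff _ _ _ _).1 fun e e' q r r' q' u u' q'' => ?_
          exact (h' ![e, e', q, r, r', q', u, u', q'']).2.2.2.2.2.2.2

theorem ml_iff {f g : K[X]} (hf : f ≠ 0) (hg : g ≠ 0) (s : K[X]) :
    f.natDegree < g.natDegree ↔
      ∃ x : Fin 10 → K[X], x 9 = s ∧ ∀ y : Fin 9 → K[X], ML X f g x y := by
  rw [natDegree_lt_iff hf hg]
  constructor
  · rintro ⟨c, d, e₀, φ, ψ, hc, hd, he₀, h1⟩
    obtain ⟨c', hc'⟩ := cst_C c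
    obtain ⟨d', hd'⟩ := cst_C d
    obtain ⟨e₀', he₀'⟩ := cst_C e₀
    obtain ⟨q₀, hq₀⟩ := exists_q he₀
    refine ⟨![C c, c', C d, d', C e₀, e₀', q₀, φ, ψ, s], rfl, fun y => ⟨hc', hd', he₀',
      (sq_iff _).2 hc _ _ _, hd, hq₀, (iq_iff _ _ _ _).2 (fun e he => ?_) _ _ _ _ _ _ _ _ _,
      (ih_iff _ _ _).2 (fun e he => (h1 e he).2.2) _ _ _ _ _ _⟩⟩
    exact ⟨(h1 e he).1, (h1 e he).2.1, fun h => h⟩
  · rintro ⟨x, _, h⟩
    obtain ⟨h1, h2, h3, _, h4, h5, _⟩ := h 0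
    obtain ⟨c, hc⟩ := h1.exists_C
    obtain ⟨d, hd⟩ := h2.exists_C
    obtain ⟨e₀, he₀⟩ := h3.exists_C
    rw [he₀] at h5
    refine ⟨c, d, e₀, x 7, x 8, ?_, ?_, ?_, ?_⟩
    · rw [← hc]
      refine (sq_iff _).1 fun e e' q => ?_
      exact (h ![e, e', q, 0, 0, 0, 0, 0, 0]).2.2.2.1
    · rw [← hd]; exact h4
    · rw [← hd]; exact eval_of_eq h5
    · rw [← hc, ← hd]
      have e1 : Inj (f - x 0) (g - x 2) (x 7) (x 8) ∅ := by
        refine (iq_iff _ _ _ _).1 fun e e' q r r' q' u u' q'' => ?_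
        exact (h ![e, e', q, r, r', q', u, u', q'']).2.2.2.2.2.2.1
      have e2 : ∀ e : K, (f - x 0).eval e = 0 → (x 7).eval e ≠ e₀ := by
        refine (ih_iff _ _ _).1 fun e e' q r r' q' hh => ?_
        have := (h ![e, e', q, r, r', q', 0, 0, 0]).2.2.2.2.2.2.2 hh
        rw [← he₀]
        exact this
      exact fun e he => ⟨(e1 e he).1, (e1 e he).2.1, e2 e he⟩

/-- the `∃∀` form of inequality of degrees -/
theorem mb_iff (f g : K[X]) :
    f.degree ≠ g.degree ↔ ∃ x : Fin 10 → K[X], ∀ y : Fin 9 → K[X], MB X f g x y := by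
  by_cases hf : f = 0
  · subst hf
    by_cases hg : g = 0
    · subst hg
      constructor
      · intro h; exact absurd rfl h
      · rintro ⟨x, h⟩
        rcases h 0 with h1 | h1 | h1
        · exact absurd rfl h1.2
        · exact absurd rfl h1.1
        · exact absurd rfl h1.1
    · constructor
      · intro _; exact ⟨0, fun _ => Or.inl ⟨rfl, hg⟩⟩
      · intro _ h
        rw [degree_zero] at h
        exact hg (degree_eq_bot.1 h.symm)
  · by_cases hg : g = 0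
    · subst hg
      constructor
      · intro _; exact ⟨0, fun _ => Or.inr (Or.inl ⟨hf, rfl⟩)⟩
      · intro _ h
        rw [degree_zero] at h
        exact hf (degree_eq_bot.1 h)
    · rw [degree_eq_natDegree hf, degree_eq_natDegree hg, Ne, Nat.cast_inj]
      constructor
      · intro h
        rcases Nat.lt_or_gt_of_ne h with h | h
        · obtain ⟨x, hx, h1⟩ := (ml_iff hf hg 0).1 h
          exact ⟨x, fun y => Or.inr (Or.inr ⟨hf, hg, fun _ => h1 y, fun h2 => absurd hx h2⟩)⟩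
        · obtain ⟨x, hx, h1⟩ := (ml_iff hg hf 1).1 h
          exact ⟨x, fun y => Or.inr (Or.inr ⟨hf, hg,
            fun h2 => absurd (hx.symm.trans h2) one_ne_zero, fun _ => h1 y⟩)⟩
      · rintro ⟨x, h⟩ heq
        have h' := fun y => ((h y).resolve_left (fun h => hf h.1)).resolve_left
          (fun h => hg h.2)
        by_cases hx : x 9 = 0
        · have := (ml_iff hf hg 0).2 ⟨x, hx, fun y => (h' y).2.2.1 hx⟩
          omega
        · have := (ml_iff hg hf (x 9)).2 ⟨x, rfl, fun y => (h' y).2.2.2 hx⟩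
          omega

end poly

end Pool.Agent.Y544.ED
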