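import Mathlib
import Pool.Agent.Y544.ED.Logic
import Pool.Agent.Y544.ED.Alg
import Pool.Agent.Y544.ED.Main

set_option autoImplicit false

/-!
# Equality of degrees in polynomial rings: final statements
-/

namespace Pool.Agent.Y544.ED

open Polynomial FirstOrder FirstOrder.Language FirstOrder.Ring

section fd

variable {M : Type} [CommRing M] [CompatibleRing M]

theorem FD.p3 : FD (M := M) (fun v : Fin 3 → M =>
    ∃ x : Fin 8 → M, ∀ y : Fin 9 → M, MA (v 0) (v 1) (v 2) x y) := by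
  refine FD.exs ?_
  refine FD.alls (β := Fin 9) ?_
  exact (QD.ma (TD.var (Sum.inl (Sum.inl 0))) (TD.var (Sum.inl (Sum.inl 1)))
    (TD.var (Sum.inl (Sum.inl 2))) (fun i => TD.var (Sum.inl (Sum.inr i)))
    (fun i => TD.var (Sum.inr i))).fd

/-- `t` is irreducible -/
def Irr {R : Type} [CommRing R] (t : R) : Prop :=
  (∀ c : Fin 1 → R, t * c 0 ≠ 1) ∧ ∀ a : Fin 2 → R, t = a 0 * a 1 →
    ∃ c : Fin 1 → R, a 0 * c 0 = 1 ∨ a 1 * c 0 = 1

theorem FD.irr {α : Type} (i : α) : FD (M := M) (fun v : α → M => Irr (v i)) := by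
  unfold Irr
  refine FD.and ?_ ?_
  · refine FD.alls ?_
    exact (QD.ne ((TD.var (Sum.inl i)).mul (TD.var (Sum.inr 0))) TD.one).fd
  · refine FD.alls ?_
    refine FD.imp ?_ ?_
    · exact (QD.eq (TD.var (Sum.inl i)) ((TD.var (Sum.inr 0)).mul (TD.var (Sum.inr 1)))).fd
    · refine FD.exs (β := Fin 1) ?_
      exact (QD.or (QD.eq ((TD.var (Sum.inl (Sum.inr 0))).mul (TD.var (Sum.inr 0))) TD.one)
        (QD.eq ((TD.var (Sum.inl (Sum.inr 1))).mul (TD.var (Sum.inr 0))) TD.one)).fd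

theorem irr_iff {R : Type} [CommRing R] (t : R) : Irr t ↔ Irreducible t := by
  constructor
  · rintro ⟨h1, h2⟩
    refine ⟨fun h => ?_, fun {a b} hab => ?_⟩
    · obtain ⟨c, hc⟩ := h.exists_right_inv
      exact h1 (fun _ => c) hc
    · obtain ⟨c, hc | hc⟩ := h2 ![a, b] hab
      · exact Or.inl (IsUnit.of_mul_eq_one _ hc)
      · exact Or.inr (IsUnit.of_mul_eq_one _ hc)
  · rintro ⟨h1, h2⟩
    refine ⟨fun c hc => h1 (IsUnit.of_mul_eq_one _ hc), fun a ha => ?_⟩
    rcases h2 ha with h | h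
    · obtain ⟨c, hc⟩ := h.exists_right_inv
      exact ⟨fun _ => c, Or.inl hc⟩
    · obtain ⟨c, hc⟩ := h.exists_right_inv
      exact ⟨fun _ => c, Or.inr hc⟩

end fd

section inv

variable {R S : Type} [CommRing R] [CommRing S] (σ : R ≃+* S)

theorem cst_map (e e' : R) : Cst (σ e) (σ e') ↔ Cst e e' := by
  unfold Cst
  rw [← map_mul, EmbeddingLike.map_eq_zero_iff, EmbeddingLike.map_eq_one_iff]

theorem ih_map (t F φ e e' q r r' q' : R) :
    IH (σ t) (σ F) (σ φ) (σ e) (σ e') (σ q) (σ r) (σ r') (σ q') ↔ IH t F φ e e' q r r' q' := by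
  unfold IH
  simp only [cst_map, ← map_sub, ← map_mul, EmbeddingLike.apply_eq_iff_eq]

theorem iq_map (t F G φ ψ e e' q r r' q' u u' q'' : R) :
    IQ (σ t) (σ F) (σ G) (σ φ) (σ ψ) (σ e) (σ e') (σ q) (σ r) (σ r') (σ q') (σ u) (σ u') (σ q'')
      ↔ IQ t F G φ ψ e e' q r r' q' u u' q'' := by
  unfold IQ
  simp only [ih_map, ← map_sub, ← map_mul, EmbeddingLike.apply_eq_iff_eq, ne_eq,
    EmbeddingLike.map_eq_one_iff]

theorem sq_map (t F e e' q : R) :
    SQ (σ t) (σ F) (σ e) (σ e') (σ q) ↔ SQ t F e e' q := by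
  unfold SQ
  simp only [cst_map, ← map_sub, ← map_mul, EmbeddingLike.apply_eq_iff_eq, ne_eq,
    EmbeddingLike.map_eq_zero_iff]

theorem ma_map (t f g : R) (x : Fin 8 → R) (y : Fin 9 → R) :
    MA (σ t) (σ f) (σ g) (fun i => σ (x i)) (fun i => σ (y i)) ↔ MA t f g x y := by
  unfold MA
  simp only [cst_map, sq_map, iq_map, ← map_sub, ne_eq, EmbeddingLike.map_eq_zero_iff]

theorem p3_map (t f g : R) :
    (∃ x : Fin 8 → S, ∀ y : Fin 9 → S, MA (σ t) (σ f) (σ g) x y) ↔
      ∃ x : Fin 8 → R, ∀ y : Fin 9 → R, MA t f g x y := by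
  constructor
  · rintro ⟨x, h⟩
    refine ⟨fun i => σ.symm (x i), fun y => ?_⟩
    rw [← ma_map σ]
    simpa only [RingEquiv.apply_symm_apply] using h (fun i => σ (y i))
  · rintro ⟨x, h⟩
    refine ⟨fun i => σ (x i), fun y => ?_⟩
    have := h (fun i => σ.symm (y i))
    rw [← ma_map σ] at this
    simpa only [RingEquiv.apply_symm_apply] using this

end inv

section poly

variable {K : Type} [Field K]

theorem degree_comp_lin {a b : K} (ha : a ≠ 0) (f : K[X]) :
    (f.comp (C a * X + C b)).degree = f.degree := by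
  by_cases hf : f = 0
  · rw [hf, zero_comp]
  · have h1 : (C a * X + C b).natDegree = 1 := natDegree_linear ha
    have h2 : (f.comp (C a * X + C b)) ≠ 0 := by
      intro h
      rcases comp_eq_zero_iff.1 h with h | h
      · exact hf h
      · have := congrArg natDegree h.2
        rw [h1, natDegree_C] at this
        exact one_ne_zero this
    rw [degree_eq_natDegree h2, degree_eq_natDegree hf, natDegree_comp, h1, mul_one]

variable [IsAlgClosed K] [CharZero K]

/-- the formula with an irreducible polynomial in place of `X` -/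
theorem p3_irr {t : K[X]} (ht : Irreducible t) (f g : K[X]) :
    (∃ x : Fin 8 → K[X], ∀ y : Fin 9 → K[X], MA t f g x y) ↔ f.degree = g.degree := by
  have h1 : t.degree = 1 := IsAlgClosed.degree_eq_one_of_irreducible K ht
  have h2 := eq_X_add_C_of_degree_le_one h1.le
  set a := t.coeff 1 with ha
  set b := t.coeff 0 with hb
  have ha0 : a ≠ 0 := by
    intro h
    rw [h, C_0, zero_mul, zero_add] at h2
    rw [h2] at h1
    have h3 := degree_C_le (a := b)
    rw [h1] at h3
    exact absurd h3 (by decide)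
  letI : Invertible a := invertibleOfNonzero ha0
  let σ : K[X] ≃+* K[X] := (algEquivCMulXAddC a b).toRingEquiv
  have hσ : ∀ f : K[X], σ f = f.comp (C a * X + C b) := fun f => by
    change algEquivCMulXAddC a b f = _
    rw [algEquivCMulXAddC_apply]
    rfl
  have h3 : σ X = t := by rw [hσ, X_comp, ← h2]
  have h4 : ∀ f : K[X], (σ.symm f).degree = f.degree := fun f => by
    rw [← degree_comp_lin ha0 (b := b) (σ.symm f), ← hσ, σ.apply_symm_apply]
  have h5 := p3_map σ X (σ.symm f) (σ.symm g)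
  rw [h3, σ.apply_symm_apply, σ.apply_symm_apply, ← ma_iff, h4, h4] at h5
  exact h5

variable (K) in
/-- Equality of degrees is definable without parameters in `K[X]`. -/
theorem definable_degree_eq :
    letI := compatibleRingOfRing K[X]
    (∅ : Set K[X]).Definable₂ Language.ring {p : K[X] × K[X] | p.1.degree = p.2.degree} := by
  letI := compatibleRingOfRing K[X]
  have h1 : FD (M := K[X]) (fun v : Fin 2 → K[X] => ∃ s : Fin 1 → K[X], Irr (s 0) ∧
      ∃ x : Fin 8 → K[X], ∀ y : Fin 9 → K[X], MA (s 0) (v 0) (v 1) x y) := by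
    refine FD.exs ?_
    refine FD.and (FD.irr (Sum.inr 0)) ?_
    exact FD.comap FD.p3 ![Sum.inr 0, Sum.inl 0, Sum.inl 1]
  have h2 : FD (M := K[X]) (fun v : Fin 2 → K[X] => (v 0).degree = (v 1).degree) := by
    refine h1.congr fun v => ?_
    constructor
    · rintro ⟨s, hs, h⟩
      exact (p3_irr ((irr_iff _).1 hs) _ _).1 h
    · intro h
      exact ⟨fun _ => X, (irr_iff _).2 irreducible_X, (p3_irr irreducible_X _ _).2 h⟩
  exact h2.definable

variable (K) in
/-- Equality of degrees has an `∃∀` definition with parameter `X`. -/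
theorem exists_forall_form :
    letI := compatibleRingOfRing K[X]
    ∃ φ : Language.ring.Formula (Fin 3 ⊕ Fin 8 ⊕ Fin 9), φ.IsQF ∧ ∀ f g : K[X],
      f.degree = g.degree ↔ ∃ x : Fin 8 → K[X], ∀ y : Fin 9 → K[X],
        φ.Realize (Sum.elim ![X, f, g] (Sum.elim x y)) := by
  letI := compatibleRingOfRing K[X]
  obtain ⟨φ, h1, h2⟩ : QD (M := K[X]) (fun v : Fin 3 ⊕ Fin 8 ⊕ Fin 9 → K[X] =>
    MA (v (Sum.inl 0)) (v (Sum.inl 1)) (v (Sum.inl 2)) (fun i => v (Sum.inr (Sum.inl i)))
      (fun i => v (Sum.inr (Sum.inr i)))) :=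
    QD.ma (TD.var _) (TD.var _) (TD.var _) (fun _ => TD.var _) (fun _ => TD.var _)
  refine ⟨φ, h1, fun f g => ?_⟩
  rw [ma_iff]
  refine exists_congr fun x => forall_congr' fun y => ?_
  rw [h2]
  exact Iff.rfl

variable (K) in
/-- Equality of degrees has a `∀∃` definition with parameter `X`. -/
theorem forall_exists_form :
    letI := compatibleRingOfRing K[X]
    ∃ φ : Language.ring.Formula (Fin 3 ⊕ Fin 10 ⊕ Fin 9), φ.IsQF ∧ ∀ f g : K[X],
      f.degree = g.degree ↔ ∀ x : Fin 10 → K[X], ∃ y : Fin 9 → K[X],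
        φ.Realize (Sum.elim ![X, f, g] (Sum.elim x y)) := by
  letI := compatibleRingOfRing K[X]
  obtain ⟨φ, h1, h2⟩ : QD (M := K[X]) (fun v : Fin 3 ⊕ Fin 10 ⊕ Fin 9 → K[X] =>
    ¬ MB (v (Sum.inl 0)) (v (Sum.inl 1)) (v (Sum.inl 2)) (fun i => v (Sum.inr (Sum.inl i)))
      (fun i => v (Sum.inr (Sum.inr i)))) :=
    (QD.mb (TD.var _) (TD.var _) (TD.var _) (fun _ => TD.var _) (fun _ => TD.var _)).not
  refine ⟨φ, h1, fun f g => ?_⟩
  rw [← not_iff_not, ← Ne, mb_iff, not_forall]
  refine exists_congr fun x => ?_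
  rw [not_exists]
  refine forall_congr' fun y => ?_
  rw [h2, not_not]
  exact Iff.rfl

end poly

end Pool.Agent.Y544.ED
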